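import Mathlib

set_option autoImplicit false

namespace Pool.Agent.H.MP_50702e_an

open scoped InnerProductSpace
open Filter Topology

abbrev E : Type := lp (fun _ : ℤ => ℂ) 2

theorem mem_iff (f : ℤ → ℂ) : Memℓp f 2 ↔ Summable fun n => ‖f n‖ ^ (2 : ℝ) := by
  rw [memℓp_gen_iff (by norm_num)]
  simp

noncomputable def shl (k : ℤ) : E →ₗ[ℂ] E where
  toFun f := ⟨fun n => f (n - k), (mem_iff _).2
    ((Equiv.subRight k).summable_iff.2 ((mem_iff _).1 (lp.memℓp f)))⟩
  map_add' _ _ := rfl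
  map_smul' _ _ := rfl

theorem hs_congr {ι : Type} {f g : ι → ℂ} {a : ℂ} (h : HasSum f a) (e : f = g) :
    HasSum g a := e ▸ h

theorem shl_apply (k : ℤ) (f : E) (n : ℤ) : shl k f n = f (n - k) := rfl

theorem inner_shl (k : ℤ) (f g : E) : ⟪shl k f, shl k g⟫_ℂ = ⟪f, g⟫_ℂ := by
  rw [lp.inner_eq_tsum, lp.inner_eq_tsum]
  exact (Equiv.subRight k).tsum_eq (fun n => ⟪f n, g n⟫_ℂ)

noncomputable def sh (k : ℤ) : E →L[ℂ] E :=
  ((shl k).isometryOfInner (inner_shl k)).toContinuousLinearMap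

theorem sh_apply (k : ℤ) (f : E) (n : ℤ) : sh k f n = f (n - k) := rfl

theorem sh_sh (j k : ℤ) : sh j * sh k = sh (j + k) := by
  ext f n
  show f (n - j - k) = f (n - (j + k))
  rw [sub_sub]

theorem star_sh (k : ℤ) : star (sh k) = sh (-k) := by
  rw [ContinuousLinearMap.star_eq_adjoint, eq_comm, ContinuousLinearMap.eq_adjoint_iff]
  intro x y
  rw [← inner_shl k]
  congr 1
  ext n
  show x (n - k - -k) = x n
  rw [sub_neg_eq_add, sub_add_cancel]

noncomputable def N : E →L[ℂ] E := sh 2 + sh 3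

theorem N_normal : IsStarNormal N := by
  constructor
  show star N * N = N * star N
  simp only [N, star_add, star_sh, add_mul, mul_add, sh_sh]
  norm_num
  abel

theorem N_apply (f : E) (n : ℤ) : N f n = f (n - 2) + f (n - 3) := rfl

noncomputable def co (n : ℤ) : E →L[ℂ] ℂ := lp.evalCLM ℂ (fun _ : ℤ => ℂ) 2 n

theorem co_apply (n : ℤ) (f : E) : co n f = f n := rfl

def Hs : Submodule ℂ E where
  carrier := {f | ∀ n, n < 0 ∨ n = 1 → f n = 0}
  add_mem' := fun {f g} hf hg n hn => by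
    show f n + g n = 0
    rw [hf n hn, hg n hn, add_zero]
  zero_mem' := fun _ _ => rfl
  smul_mem' := fun c f hf n hn => by
    show c • f n = 0
    rw [hf n hn, smul_zero]

theorem Hs_closed : IsClosed (Hs : Set E) := by
  have : (Hs : Set E) = ⋂ n, ⋂ (_ : n < 0 ∨ n = 1), (co n) ⁻¹' {0} := by
    ext f
    simp only [Set.mem_iInter, Set.mem_preimage, Set.mem_singleton_iff, co_apply]
    rfl
  rw [this]
  exact isClosed_iInter fun n => isClosed_iInter fun _ =>
    isClosed_singleton.preimage (co n).continuous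

instance : CompleteSpace Hs := Hs_closed.completeSpace_coe

instance : TopologicalSpace.SeparableSpace E := by
  classical
  have h1 : TopologicalSpace.IsSeparable
      (Submodule.span ℂ (Set.range fun n : ℤ => (lp.single 2 n (1 : ℂ) : E)) : Set E) :=
    (Set.countable_range _).isSeparable.span
  rw [← TopologicalSpace.isSeparable_univ_iff]
  refine h1.closure.mono fun f _ => ?_
  refine mem_closure_of_tendsto (lp.hasSum_single (by norm_num) f) (Eventually.of_forall fun s => ?_)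
  refine Submodule.sum_mem _ fun n _ => ?_
  have : (lp.single 2 n (f n) : E) = f n • lp.single 2 n (1 : ℂ) := by
    rw [← lp.single_smul]; simp
  rw [this]
  exact Submodule.smul_mem _ _ (Submodule.subset_span ⟨n, rfl⟩)

instance : TopologicalSpace.SeparableSpace Hs :=
  haveI : SecondCountableTopology E := UniformSpace.secondCountable_of_separable E
  inferInstance

theorem N_mem (f : E) (hf : f ∈ Hs) : N f ∈ Hs := by
  intro n hn
  rw [N_apply, hf _ (by omega), hf _ (by omega), add_zero]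

noncomputable def S : Hs →L[ℂ] Hs := (N.comp Hs.subtypeL).codRestrict Hs fun f => N_mem f.1 f.2

theorem S_coe (f : Hs) : (S f : E) = N f := rfl

/-- the Szego kernel at a real point -/
noncomputable def K (a : ℝ) (h0 : 0 ≤ a) (h1 : a < 1) : E :=
  ⟨fun n => if 0 ≤ n then ((a ^ n.toNat : ℝ) : ℂ) else 0, by
    refine (mem_iff _).2 ?_
    apply Summable.of_nat_of_neg_add_one
    · refine (summable_geometric_of_lt_one (sq_nonneg a) (by nlinarith)).congr fun n => ?_
      simp [abs_of_nonneg h0, ← pow_mul, mul_comm]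
    · refine summable_zero.congr fun n => ?_
      rw [if_neg (by omega)]; simp⟩

noncomputable def ev (a : ℝ) (h0 : 0 ≤ a) (h1 : a < 1) : E →L[ℂ] ℂ := innerSL ℂ (K a h0 h1)

theorem ev_hasSum (a : ℝ) (h0 : 0 ≤ a) (h1 : a < 1) (f : E) :
    HasSum (fun n : ℤ => f n * if 0 ≤ n then ((a ^ n.toNat : ℝ) : ℂ) else 0) (ev a h0 h1 f) := by
  have := lp.hasSum_inner (𝕜 := ℂ) (K a h0 h1) f
  have e : (fun n : ℤ => f n * if 0 ≤ n then ((a ^ n.toNat : ℝ) : ℂ) else 0) =
      fun i => ⟪(K a h0 h1) i, f i⟫_ℂ := by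
    funext n
    show _ = ⟪(if 0 ≤ n then ((a ^ n.toNat : ℝ) : ℂ) else 0), f n⟫_ℂ
    split_ifs <;> simp
  rw [e]
  exact this

theorem ev_sh (a : ℝ) (h0 : 0 ≤ a) (h1 : a < 1) (k : ℕ) (f : E) (hf : ∀ n, n < 0 → f n = 0) :
    ev a h0 h1 (sh k f) = (a : ℂ) ^ k * ev a h0 h1 f := by
  have e1 := (Equiv.addRight (k : ℤ)).hasSum_iff.2 (ev_hasSum a h0 h1 (sh k f))
  have e2 := (ev_hasSum a h0 h1 f).mul_left ((a : ℂ) ^ k)
  refine e1.unique ?_
  refine hs_congr e2 ?_
  funext n
  symm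
  simp only [Function.comp, Equiv.coe_addRight, sh_apply, add_sub_cancel_right]
  by_cases hn : 0 ≤ n
  · have hn' : 0 ≤ n + (k : ℤ) := by omega
    simp only [hn, hn', if_true, Int.toNat_add hn (Int.natCast_nonneg k), Int.toNat_natCast]
    push_cast; ring
  · rw [hf n (by omega)]; simp

theorem ps_zero (c : ℕ → ℂ) (C : ℝ) (hC : ∀ n, ‖c n‖ ≤ C)
    (h : ∀ a : ℝ, 9 / 10 < a → a < 1 → HasSum (fun n => c n * (a : ℂ) ^ n) 0) : c = 0 := by
  let p := FormalMultilinearSeries.ofScalars ℂ c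
  have hr : 1 ≤ p.radius := by
    have := p.le_radius_of_bound C (r := 1) (fun n => by
      simpa [p, FormalMultilinearSeries.ofScalars_norm] using hC n)
    simpa using this
  have hp : HasFPowerSeriesOnBall p.sum p 0 1 :=
    (p.hasFPowerSeriesOnBall (lt_of_lt_of_le one_pos hr)).mono one_pos hr
  have hz : Set.EqOn p.sum 0 (Metric.eball (0 : ℂ) 1) := by
    refine hp.analyticOnNhd.eqOn_zero_of_preconnected_of_frequently_eq_zero
      (convex_eball _ _).isPreconnected (z₀ := ((95 / 100 : ℝ) : ℂ)) ?_ ?_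
    · rw [← ENNReal.ofReal_one, Metric.eball_ofReal, mem_ball_zero_iff, Complex.norm_real]
      norm_num
    · have ht : Tendsto (fun a : ℝ => (a : ℂ)) (𝓝[≠] (95 / 100)) (𝓝[≠] ((95 / 100 : ℝ) : ℂ)) := by
        refine tendsto_nhdsWithin_iff.2 ⟨(Complex.continuous_ofReal.tendsto _).mono_left
          nhdsWithin_le_nhds, ?_⟩
        filter_upwards [self_mem_nhdsWithin] with a ha
        exact fun h => ha (Complex.ofReal_injective h)
      refine ht.frequently (Eventually.frequently ?_)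
      have : Set.Ioo (9 / 10 : ℝ) 1 ∈ 𝓝[≠] (95 / 100 : ℝ) :=
        mem_nhdsWithin_of_mem_nhds (Ioo_mem_nhds (by norm_num) (by norm_num))
      filter_upwards [this] with a ha
      have h2 := (h a ha.1 ha.2).tsum_eq
      rw [FormalMultilinearSeries.sum, ← h2]
      congr 1
      ext n
      simp [p, mul_comm]
  have h0 : HasFPowerSeriesAt (0 : ℂ → ℂ) p 0 := by
    refine hp.hasFPowerSeriesAt.congr ?_
    filter_upwards [Metric.eball_mem_nhds (0 : ℂ) one_pos] with z hz' using hz hz'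
  exact (FormalMultilinearSeries.ofScalars_series_eq_zero ℂ).1 h0.eq_zero

theorem ev_inj (f : E) (hf : ∀ n, n < 0 → f n = 0)
    (h : ∀ (a : ℝ) (h0 : 0 ≤ a) (h1 : a < 1), 9 / 10 < a → ev a h0 h1 f = 0) : f = 0 := by
  have := ps_zero (fun n => f n) ‖f‖ (fun n => lp.norm_apply_le_norm (by norm_num) f _) (by
    intro a ha h1
    have e := ev_hasSum a (by linarith) h1 f
    rw [h a _ h1 ha] at e
    have e2 := (Function.Injective.hasSum_iff (f := fun n : ℤ => f n *
      if 0 ≤ n then ((a ^ n.toNat : ℝ) : ℂ) else 0) (g := fun n : ℕ => (n : ℤ))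
      Nat.cast_injective (by
        intro n hn
        rw [if_neg, mul_zero]
        intro h
        exact hn ⟨n.toNat, by simp; omega⟩)).2 e
    convert e2 using 2 with n
    simp)
  ext n
  by_cases hn : n < 0
  · exact hf n hn
  · have h2 := congrFun this n.toNat
    simp only [Pi.zero_apply] at h2
    rw [Int.toNat_of_nonneg (by omega)] at h2
    exact h2

theorem grow_zero (v : ℕ → ℂ) (ρ : ℂ) (hρ : 1 < ‖ρ‖) (C : ℝ) (hC : ∀ n, ‖v n‖ ≤ C)
    (h : ∀ n, v (n + 1) = ρ * v n) : ∀ n, v n = 0 := by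
  have h1 : ∀ n, v n = ρ ^ n * v 0 := by
    intro n
    induction n with
    | zero => simp
    | succ n ih => rw [h, ih]; ring
  have h2 : v 0 = 0 := by
    by_contra hne
    have hpos : 0 < ‖v 0‖ := norm_pos_iff.2 hne
    obtain ⟨n, hn⟩ := pow_unbounded_of_one_lt (C / ‖v 0‖) hρ
    have := hC n
    rw [h1, norm_mul, norm_pow] at this
    rw [div_lt_iff₀ hpos] at hn
    linarith
  intro n; rw [h1, h2, mul_zero]

theorem rec_sol (w : ℕ → ℂ) (a : ℝ) (ha : 9 / 10 < a) (h1 : a < 1) (C : ℝ) (hC : ∀ n, ‖w n‖ ≤ C)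
    (h : ∀ n, w (n + 2) + w (n + 3) = ((a : ℂ) ^ 2 + (a : ℂ) ^ 3) * w n) :
    ∀ n, w (n + 1) = a * w n := by
  let s : ℝ := √((1 + a) * (3 * a - 1))
  have hs : s ^ 2 = (1 + a) * (3 * a - 1) := Real.sq_sqrt (by nlinarith)
  let ρ : ℂ := ⟨-(1 + a) / 2, s / 2⟩
  let ρ' : ℂ := ⟨-(1 + a) / 2, -s / 2⟩
  have hsum : ρ + ρ' = -(1 + a) := by
    apply Complex.ext
    · simp [ρ, ρ']
    · simp [ρ, ρ']; ring
  have hprod : ρ * ρ' = a * (1 + a) := by
    apply Complex.ext <;> simp [ρ, ρ'] <;> nlinarith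
  have hn : 1 < ‖ρ‖ := by
    rw [← sq_lt_sq₀ (by norm_num) (norm_nonneg _), Complex.sq_norm, Complex.normSq_apply]
    simp only [ρ]; nlinarith
  have hn' : 1 < ‖ρ'‖ := by
    rw [← sq_lt_sq₀ (by norm_num) (norm_nonneg _), Complex.sq_norm, Complex.normSq_apply]
    simp only [ρ']; nlinarith
  have hu : ∀ n, ‖w (n + 1) - a * w n‖ ≤ C + ‖(a : ℂ)‖ * C := fun n =>
    (norm_sub_le _ _).trans (add_le_add (hC _) (by rw [norm_mul]; gcongr; exact hC _))
  have hv := grow_zero (fun n => (w (n + 2) - a * w (n + 1)) - ρ' * (w (n + 1) - a * w n)) ρ hn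
    ((C + ‖(a : ℂ)‖ * C) + ‖ρ'‖ * (C + ‖(a : ℂ)‖ * C)) (fun n =>
      (norm_sub_le _ _).trans (add_le_add (hu _) (by rw [norm_mul]; gcongr; exact hu _)))
    (fun n => by
      have := h n
      linear_combination this - (w (n + 2) - a * w (n + 1)) * hsum +
        (w (n + 1) - a * w n) * hprod)
  have := grow_zero (fun n => w (n + 1) - a * w n) ρ' hn' _ hu (fun n => by
    have := hv n
    linear_combination this)
  intro n
  exact sub_eq_zero.1 (this n)

end Pool.Agent.H.MP_50702e_an
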