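import Pool.Agent.H.MP_50702e_an.A

set_option autoImplicit false

namespace Pool.Agent.H.MP_50702e_an

open scoped InnerProductSpace
open Filter Topology

noncomputable def e (n : ℤ) : E := lp.single 2 n (1 : ℂ)

theorem e_apply (n m : ℤ) : e n m = if m = n then 1 else 0 := by
  simp only [e, lp.single_apply, Pi.single_apply]

theorem norm_e (n : ℤ) : ‖e n‖ = 1 := by
  simp only [e]
  rw [lp.norm_single (by norm_num)]; simp

theorem e_mem (n : ℤ) (h0 : 0 ≤ n) (h1 : n ≠ 1) : e n ∈ Hs := by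
  intro m hm
  rw [e_apply, if_neg (by omega)]

theorem N_e (n : ℤ) : N (e n) = e (n + 2) + e (n + 3) := by
  ext m
  show e n (m - 2) + e n (m - 3) = e (n + 2) m + e (n + 3) m
  simp only [e_apply, sub_eq_iff_eq_add]

theorem ev_N (a : ℝ) (h0 : 0 ≤ a) (h1 : a < 1) (f : Hs) :
    ev a h0 h1 (S f) = ((a : ℂ) ^ 2 + (a : ℂ) ^ 3) * ev a h0 h1 f := by
  have h2 := ev_sh a h0 h1 2 f (fun n hn => f.2 n (Or.inl hn))
  have h3 := ev_sh a h0 h1 3 f (fun n hn => f.2 n (Or.inl hn))
  rw [S_coe, N, add_apply, map_add]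
  simp only [Nat.cast_ofNat] at h2 h3
  rw [h2, h3]; ring

noncomputable def ep (n : ℤ) : Hs := Hs.orthogonalProjectionOnto (e n)

theorem ep_coe (n : ℤ) (h0 : 0 ≤ n) (h1 : n ≠ 1) : (ep n : E) = e n :=
  congrArg Subtype.val (Hs.orthogonalProjectionOnto_mem_subspace_eq_self ⟨e n, e_mem n h0 h1⟩)

theorem T_e (T : Hs →L[ℂ] Hs) (hT : ∀ x, T (S x) = S (T x)) (n : ℕ) (hn : (n : ℤ) ≠ 1) :
    (T (ep n) : E) = sh n (T (ep 0) : E) := by
  rw [← sub_eq_zero]
  apply ev_inj
  · intro m hm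
    show (T (ep n) : E) m - (T (ep 0) : E) (m - n) = 0
    rw [(T _).2 m (Or.inl hm), (T _).2 (m - n) (Or.inl (by omega)), sub_zero]
  · intro a h0 h1 ha
    rw [map_sub, ev_sh a h0 h1 n _ (fun m hm => (T _).2 m (Or.inl hm)), sub_eq_zero]
    let w : ℤ → ℂ := fun m => ev a h0 h1 (T (ep m))
    have hw : ∀ m, 0 ≤ m → m ≠ 1 →
        w (m + 2) + w (m + 3) = ((a : ℂ) ^ 2 + (a : ℂ) ^ 3) * w m := by
      intro m p q
      simp only [w]
      rw [← ev_N, ← hT, ← map_add, ← Submodule.coe_add, ← map_add]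
      congr 3
      apply Subtype.ext
      rw [S_coe, Submodule.coe_add, ep_coe _ p q, ep_coe _ (by omega) (by omega),
        ep_coe _ (by omega) (by omega), N_e]
    have hr := rec_sol (fun k => w (k + 2)) a ha h1 (‖ev a h0 h1‖ * ‖T‖)
      (fun k => by
        refine ((ev a h0 h1).le_opNorm _).trans ?_
        gcongr
        refine (T.le_opNorm _).trans ?_
        show ‖T‖ * ‖(ep _ : E)‖ ≤ _
        rw [ep_coe _ (by omega) (by omega), norm_e, mul_one]) (fun k => by
        rw [← hw _ (by omega) (by omega)]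
        congr 2)
    have hp : ∀ k : ℕ, w (k + 2) = (a : ℂ) ^ k * w 2 := by
      intro k
      induction k with
      | zero => simp
      | succ k ih => rw [hr k, ih]; ring
    have h2 : w 2 = (a : ℂ) ^ 2 * w 0 := by
      have e1 := hw 0 le_rfl (by omega)
      have e2 := hp 1
      norm_num at e1 e2
      rw [e2] at e1
      have : (1 + (a : ℂ)) ≠ 0 := by
        have : (1 + a : ℝ) ≠ 0 := by linarith
        exact_mod_cast this
      apply mul_left_cancel₀ this
      linear_combination e1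
    show w n = (a : ℂ) ^ n * w 0
    match n, hn with
    | 0, _ => simp
    | 1, hn => exact absurd rfl hn
    | k + 2, _ =>
      push_cast
      rw [hp, h2]; ring

theorem ext_H (F G : Hs →L[ℂ] ℂ) (h : ∀ n, 0 ≤ n → n ≠ 1 → F (ep n) = G (ep n)) : F = G := by
  classical
  ext y
  let P := Hs.orthogonalProjectionOnto
  have hP : ∀ x : Hs, P x = x := fun x => Hs.orthogonalProjectionOnto_mem_subspace_eq_self x
  have h1 := (lp.hasSum_single (p := 2) (by norm_num) (y : E)).mapL (F.comp P)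
  have h2 := (lp.hasSum_single (p := 2) (by norm_num) (y : E)).mapL (G.comp P)
  simp only [ContinuousLinearMap.comp_apply, hP] at h1 h2
  refine h1.unique (hs_congr h2 ?_)
  funext n
  have : (lp.single 2 n ((y : E) n) : E) = (y : E) n • e n := by
    rw [e, ← lp.single_smul]; simp
  rw [this]
  by_cases hn : n < 0 ∨ n = 1
  · rw [y.2 n hn]; simp
  · push Not at hn
    simp only [map_smul]
    exact congrArg _ (h n hn.1 hn.2).symm

theorem ex_psi (T : Hs →L[ℂ] Hs) (hT : ∀ x, T (S x) = S (T x)) (v : Hs) :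
    ∃ (ψ : Hs →L[ℂ] ℂ) (l : ℂ), ψ ≠ 0 ∧ ψ v = 0 ∧ ∀ y, ψ (T y) = l * ψ y := by
  set h : E := (T (ep 0) : E) with hh
  have hm : h ∈ Hs := (T _).2
  let L : (Fin 3 → ℂ) →ₗ[ℂ] (Fin 2 → ℂ) :=
    Matrix.mulVecLin !![0, h 2, h 3; (v : E) 0, (v : E) 2, (v : E) 3]
  obtain ⟨x, hx, hx0⟩ := (Submodule.ne_bot_iff _).1
    (LinearMap.ker_ne_bot_of_finrank_lt (f := L) (by simp))
  have a1 := congrFun (LinearMap.mem_ker.1 hx) 0
  have a2 := congrFun (LinearMap.mem_ker.1 hx) 1
  simp [L, Matrix.mulVec, dotProduct, Fin.sum_univ_three] at a1 a2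
  let ψ : Hs →L[ℂ] ℂ := (x 0 • co 0 + x 1 • co 2 + x 2 • co 3).comp Hs.subtypeL
  have hψ : ∀ y : Hs, ψ y = x 0 * (y : E) 0 + x 1 * (y : E) 2 + x 2 * (y : E) 3 := fun _ => rfl
  refine ⟨ψ, h 0, fun h0 => hx0 ?_, by rw [hψ]; linear_combination a2, ?_⟩
  · have b0 := hψ ⟨e 0, e_mem 0 le_rfl (by norm_num)⟩
    have b1 := hψ ⟨e 2, e_mem 2 (by norm_num) (by norm_num)⟩
    have b2 := hψ ⟨e 3, e_mem 3 (by norm_num) (by norm_num)⟩
    simp [h0, e_apply] at b0 b1 b2
    ext i
    fin_cases i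
    · exact b0.symm
    · exact b1.symm
    · exact b2.symm
  · have : ψ.comp T = h 0 • ψ := by
      apply ext_H
      intro n p q
      obtain ⟨n, rfl⟩ := Int.eq_ofNat_of_zero_le p
      rw [ContinuousLinearMap.comp_apply, smul_apply, hψ, hψ, T_e T hT n q,
        ← hh, ep_coe _ p q]
      simp only [sh_apply, e_apply, smul_eq_mul]
      have h1 : h 1 = 0 := hm 1 (Or.inr rfl)
      match n, q with
      | 0, _ => simp; linear_combination a1
      | 1, q => exact absurd rfl q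
      | 2, _ => simp [h1, hm (-2) (Or.inl (by norm_num))]; ring
      | 3, _ => simp [hm (-3) (Or.inl (by norm_num)), hm (-1) (Or.inl (by norm_num))]; ring
      | k + 4, _ =>
        rw [hm _ (Or.inl (by omega)), hm _ (Or.inl (by omega)), hm _ (Or.inl (by omega)),
          if_neg (by omega), if_neg (by omega), if_neg (by omega)]
        simp
    intro y
    exact congrArg (fun F : Hs →L[ℂ] ℂ => F y) this

end Pool.Agent.H.MP_50702e_an
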