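import Pool.Agent.H.MP_50702e_an.B

set_option autoImplicit false

namespace Pool.Agent.H.MP_50702e_an

open MeasureTheory Polynomial

theorem rat_memLp (μ : Measure ℂ) [IsFiniteMeasure μ] (K : Set ℂ) (hK : IsCompact K)
    (h0 : μ Kᶜ = 0) (p q : ℂ[X]) (hq : ∀ z ∈ K, q.eval z ≠ 0) (r : ENNReal) :
    MemLp (fun z => p.eval z / q.eval z) r μ := by
  have hc : ContinuousOn (fun z => p.eval z / q.eval z) K :=
    p.continuous.continuousOn.div q.continuous.continuousOn hq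
  obtain ⟨C, hC⟩ := hK.exists_bound_of_continuousOn hc
  refine MemLp.of_bound (p.continuous.measurable.div q.continuous.measurable).aestronglyMeasurable C ?_
  have : ∀ᵐ z ∂μ, z ∈ K := h0
  filter_upwards [this] with z hz using hC z hz

theorem main (μ : Measure ℂ) (K : Set ℂ) (R : Submodule ℂ (Lp ℂ 2 μ)) (φ : ℂ → ℂ)
    (U : Hs ≃ₗᵢ[ℂ] R) (hμ : IsFiniteMeasure μ) (hK : IsCompact K) (h0 : μ Kᶜ = 0)
    (hR : R = (Submodule.span ℂ
      {f : Lp ℂ 2 μ | ∃ p q : Polynomial ℂ, (∀ z ∈ K, q.eval z ≠ 0) ∧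
        (f : ℂ → ℂ) =ᵐ[μ] fun z => p.eval z / q.eval z}).topologicalClosure)
    (hU : ∀ x : Hs, ((U (S x) : Lp ℂ 2 μ) : ℂ → ℂ) =ᵐ[μ]
      fun z => φ z * ((U x : Lp ℂ 2 μ) : ℂ → ℂ) z) : False := by
  set G := {f : Lp ℂ 2 μ | ∃ p q : Polynomial ℂ, (∀ z ∈ K, q.eval z ≠ 0) ∧
    (f : ℂ → ℂ) =ᵐ[μ] fun z => p.eval z / q.eval z} with hG
  have hGR : ∀ f ∈ G, f ∈ R := fun f hf =>
    hR ▸ Submodule.le_topologicalClosure _ (Submodule.subset_span hf)
  have hae : ∀ᵐ z ∂μ, z ∈ K := h0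
  have hind : ∀ (A : Submodule ℂ (Lp ℂ 2 μ)), IsClosed (A : Set (Lp ℂ 2 μ)) → G ⊆ A → R ≤ A := by
    intro A hA hGA
    rw [hR]
    exact Submodule.topologicalClosure_minimal _ (Submodule.span_le.2 hGA) hA
  have hRc : IsClosed (R : Set (Lp ℂ 2 μ)) := hR ▸ Submodule.isClosed_topologicalClosure _
  have : CompleteSpace R := hRc.completeSpace_coe
  let rp : ∀ p q : ℂ[X], (∀ z ∈ K, q.eval z ≠ 0) → Lp ℂ 2 μ := fun p q hq =>
    (rat_memLp μ K hK h0 p q hq 2).toLp _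
  have hrp : ∀ p q hq, (rp p q hq : ℂ → ℂ) =ᵐ[μ] fun z => p.eval z / q.eval z :=
    fun p q hq => MemLp.coeFn_toLp _
  let Z : Lp ℂ ⊤ μ := (rat_memLp μ K hK h0 X 1 (by simp) ⊤).toLp _
  have hZ : (Z : ℂ → ℂ) =ᵐ[μ] fun z => z := by
    have := MemLp.coeFn_toLp (rat_memLp μ K hK h0 X 1 (by simp) ⊤)
    filter_upwards [this] with z hz
    exact hz.trans (by simp)
  let M : Lp ℂ 2 μ →L[ℂ] Lp ℂ 2 μ := (ContinuousLinearMap.mul ℂ ℂ).holderL μ ⊤ 2 2 Z
  have hM : ∀ f, (M f : ℂ → ℂ) =ᵐ[μ] fun z => z * f z := by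
    intro f
    filter_upwards [(ContinuousLinearMap.mul ℂ ℂ).coeFn_holder (r := 2) Z f, hZ] with z h1 h2
    exact h1.trans (by simp [h2])
  have hMR : ∀ f ∈ R, M f ∈ R := by
    apply hind (R.comap M.toLinearMap) (hRc.preimage M.continuous)
    rintro f ⟨p, q, hq, hf⟩
    refine hGR _ ⟨X * p, q, hq, ?_⟩
    filter_upwards [hM f, hf] with z h1 h2
    show (M f : ℂ → ℂ) z = _
    rw [h1, h2]; simp [mul_div_assoc]
  let MR : R →L[ℂ] R := (M.comp R.subtypeL).codRestrict R fun f => hMR f.1 f.2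
  have hMRc : ∀ f : R, (MR f : Lp ℂ 2 μ) = M f := fun _ => rfl
  let T : Hs →L[ℂ] Hs := (U.symm : R →L[ℂ] Hs).comp (MR.comp (U : Hs →L[ℂ] R))
  have hTU : ∀ x, U (T x) = MR (U x) := fun x => U.apply_symm_apply _
  have hT : ∀ x, T (S x) = S (T x) := by
    intro x
    apply U.injective
    apply Subtype.ext
    apply Lp.ext
    have a1 := hU (T x)
    rw [hTU] at a1
    rw [hTU, hMRc]
    filter_upwards [a1, hM (U (S x)), hM (U x), hU x] with z h1 h2 h3 h4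
    rw [h1, h2, h4, hMRc, h3]; ring
  have h1K : ∀ z ∈ K, (1 : ℂ[X]).eval z ≠ 0 := by simp
  obtain ⟨ψ, l, hψ0, hψv, hψ⟩ := ex_psi T hT (U.symm ⟨rp 1 1 h1K, hGR _ ⟨1, 1, h1K, hrp 1 1 h1K⟩⟩)
  let Ψ : Lp ℂ 2 μ →L[ℂ] ℂ := ψ.comp ((U.symm : R →L[ℂ] Hs).comp R.orthogonalProjectionOnto)
  have hΨ : ∀ f : R, Ψ f = ψ (U.symm f) := fun f => by
    show ψ (U.symm (R.orthogonalProjectionOnto f)) = _
    rw [R.orthogonalProjectionOnto_mem_subspace_eq_self]
  have hΨM : ∀ f ∈ R, Ψ (M f) = l * Ψ f := by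
    intro f hf
    rw [hΨ ⟨f, hf⟩, ← hψ, hΨ ⟨M f, hMR f hf⟩]
    congr 1
    apply U.injective
    rw [hTU, U.apply_symm_apply, U.apply_symm_apply]
    rfl
  have hkey : ∀ q hq p, Ψ (rp p q hq) = p.eval l * Ψ (rp 1 q hq) := by
    intro q hq p
    induction p using Polynomial.induction_on with
    | C a =>
      have : rp (C a) q hq = a • rp 1 q hq := by
        apply Lp.ext
        filter_upwards [hrp (C a) q hq, Lp.coeFn_smul a (rp 1 q hq), hrp 1 q hq] with z h1 h2 h3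
        rw [h1, h2, Pi.smul_apply, h3]; simp [div_eq_mul_inv]
      rw [this, map_smul]; simp
    | add p p' ih ih' =>
      have : rp (p + p') q hq = rp p q hq + rp p' q hq := by
        apply Lp.ext
        filter_upwards [hrp (p + p') q hq, Lp.coeFn_add (rp p q hq) (rp p' q hq), hrp p q hq,
          hrp p' q hq] with z h1 h2 h3 h4
        rw [h1, h2, Pi.add_apply, h3, h4]; simp [add_div]
      rw [this, map_add, ih, ih', eval_add]; ring
    | monomial n a ih =>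
      have : rp (C a * X ^ (n + 1)) q hq = M (rp (C a * X ^ n) q hq) := by
        apply Lp.ext
        filter_upwards [hrp (C a * X ^ (n + 1)) q hq, hM (rp (C a * X ^ n) q hq),
          hrp (C a * X ^ n) q hq] with z h1 h2 h3
        rw [h1, h2, h3]; simp; ring
      rw [this, hΨM _ (hGR _ ⟨_, q, hq, hrp _ q hq⟩), ih]; simp; ring
  have hone : Ψ (rp 1 1 h1K) = 0 := (hΨ ⟨rp 1 1 h1K, hGR _ ⟨1, 1, h1K, hrp 1 1 h1K⟩⟩).trans hψv
  have hG0 : G ⊆ LinearMap.ker Ψ.toLinearMap := by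
    rintro f ⟨p, q, hq, hf⟩
    show Ψ f = 0
    by_cases hl : l ∈ K
    · have e1 : f = rp p q hq := Lp.ext (hf.trans (hrp p q hq).symm)
      have e2 : rp q q hq = rp 1 1 h1K := by
        apply Lp.ext
        filter_upwards [hrp q q hq, hrp 1 1 h1K, hae] with z h1 h2 h3
        rw [h1, h2, div_self (hq z h3)]; simp
      have e3 := hkey q hq q
      rw [e2, hone] at e3
      rw [e1, hkey q hq p, (mul_eq_zero.1 e3.symm).resolve_left (hq l hl), mul_zero]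
    · have hne : ∀ z ∈ K, z - l ≠ 0 := fun z hz h => hl (sub_eq_zero.1 h ▸ hz)
      have hq' : ∀ z ∈ K, ((X - C l) * q).eval z ≠ 0 := by
        intro z hz
        simpa using ⟨hne z hz, hq z hz⟩
      have e1 : f = rp ((X - C l) * p) ((X - C l) * q) hq' := by
        apply Lp.ext
        filter_upwards [hf, hrp ((X - C l) * p) ((X - C l) * q) hq', hae] with z h1 h2 h3
        rw [h1, h2]
        simp only [eval_mul, eval_sub, eval_X, eval_C]
        rw [mul_div_mul_left _ _ (hne z h3)]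
      rw [e1, hkey _ hq']; simp
  apply hψ0
  ext y
  have := hind (LinearMap.ker Ψ.toLinearMap) Ψ.isClosed_ker hG0 (U y).2
  have h2 : Ψ (U y) = 0 := this
  rw [hΨ, U.symm_apply_apply] at h2
  exact h2

end Pool.Agent.H.MP_50702e_an
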